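import Mathlib

set_option autoImplicit false
open scoped Classical
open Filter Topology Set

namespace Pool.Agent.H.MP_722163_an

variable {W V : Type*} [TopologicalSpace W] [T2Space W]

theorem exists_min (P : Set W → Prop) (hP : ∀ c : Set (Set W), c.Nonempty → (∀ A ∈ c, P A) → P (⋂₀ c))
    (A0 : Set W) (h0 : IsCompact A0) (h1 : A0.Nonempty) (h2 : P A0) :
    ∃ L, L ⊆ A0 ∧ IsCompact L ∧ L.Nonempty ∧ P L ∧
      ∀ L', L' ⊆ L → IsClosed L' → L'.Nonempty → P L' → L ⊆ L' := by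
  obtain ⟨L, hL, hm⟩ := zorn_superset_nonempty {A | IsCompact A ∧ A.Nonempty ∧ P A} (by
    intro c hc hch hne
    refine ⟨⋂₀ c, ⟨?_, ?_, hP c hne fun A hA => (hc hA).2.2⟩, fun A hA => sInter_subset_of_mem hA⟩
    · obtain ⟨A, hA⟩ := hne
      exact (hc hA).1.of_isClosed_subset (isClosed_sInter fun B hB => (hc hB).1.isClosed)
        (sInter_subset_of_mem hA)
    · have := hne.to_subtype
      exact IsCompact.nonempty_sInter_of_directed_nonempty_isCompact_isClosed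
        (fun A hA B hB => by
          rcases hch.total hA hB with h | h
          · exact ⟨A, hA, subset_rfl, h⟩
          · exact ⟨B, hB, h, subset_rfl⟩)
        (fun A hA => (hc hA).2.1) (fun A hA => (hc hA).1) (fun A hA => (hc hA).1.isClosed))
    A0 ⟨h0, h1, h2⟩
  exact ⟨L, hL, hm.prop.1, hm.prop.2.1, hm.prop.2.2, fun L' a b c d =>
    hm.le_of_le ⟨hm.prop.1.of_isClosed_subset b a, c, d⟩ a⟩

variable [NormedAddCommGroup V]

theorem frag (j : W → V) (hb : ∀ v r, IsClosed (j ⁻¹' Metric.closedBall v r)) (L : Set W)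
    (hL : IsCompact L) (hne : L.Nonempty) (hs : TopologicalSpace.IsSeparable (j '' L)) (ε : ℝ)
    (hε : 0 < ε) : ∃ U, IsOpen U ∧ (U ∩ L).Nonempty ∧
      ∀ y ∈ U ∩ L, ∀ z ∈ U ∩ L, dist (j y) (j z) ≤ ε := by
  obtain ⟨D, hD, hD'⟩ := hs
  have := hD.to_subtype
  have := hne.to_subtype
  have : CompactSpace L := isCompact_iff_compactSpace.1 hL
  obtain ⟨p, x, hx⟩ := nonempty_interior_of_iUnion_of_closed
    (f := fun p : D => ((↑) : L → W) ⁻¹' (j ⁻¹' Metric.closedBall p.1 (ε / 2)))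
    (fun p => (hb _ _).preimage continuous_subtype_val) (by
      rw [eq_univ_iff_forall]
      intro x
      obtain ⟨p, hp, hp'⟩ := Metric.mem_closure_iff.1 (hD' ⟨x.1, x.2, rfl⟩) (ε / 2) (half_pos hε)
      exact mem_iUnion.2 ⟨⟨p, hp⟩, hp'.le⟩)
  obtain ⟨U, hU, hU'⟩ := isOpen_induced_iff.1 (isOpen_interior (s := ((↑) : L → W) ⁻¹'
    (j ⁻¹' Metric.closedBall p.1 (ε / 2))))
  rw [← hU'] at hx
  have key : ∀ y ∈ U ∩ L, dist (j y) p.1 ≤ ε / 2 := fun y hy => by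
    have : (⟨y, hy.2⟩ : L) ∈ interior (((↑) : L → W) ⁻¹' (j ⁻¹' Metric.closedBall p.1 (ε / 2))) := by
      rw [← hU']; exact hy.1
    have h2 := interior_subset this
    exact h2
  refine ⟨U, hU, ⟨x.1, hx, x.2⟩, fun y hy z hz => ?_⟩
  have := dist_triangle_right (j y) (j z) p.1
  linarith [key y hy, key z hz]

theorem onto (j : W → V) (hj : Function.Injective j)
    (hb : ∀ v r, IsClosed (j ⁻¹' Metric.closedBall v r)) (L : Set W) (hL : IsCompact L)
    (hnet : ∀ ε : ℝ, 0 < ε → ∃ F : Finset W, ∀ x ∈ L, ∃ y ∈ F, dist (j x) (j y) ≤ ε)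
    (B : W → W) (hm : MapsTo B L L) (hc : ContinuousOn B L)
    (hi : ∀ x ∈ L, ∀ y ∈ L, dist (j x) (j y) ≤ dist (j (B x)) (j (B y))) : L ⊆ B '' L := by
  intro y hy
  by_contra hny
  obtain ⟨δ, hδ, hδ'⟩ : ∃ δ : ℝ, 0 < δ ∧ ∀ x ∈ L, δ < dist (j (B x)) (j y) := by
    by_contra! h
    have hK := hL.image_of_continuousOn hc
    obtain ⟨w, hw⟩ := IsCompact.nonempty_iInter_of_sequence_nonempty_isCompact_isClosed
      (fun n : ℕ => B '' L ∩ j ⁻¹' Metric.closedBall (j y) (1 / ((n : ℝ) + 1)))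
      (fun n => inter_subset_inter_right _ (preimage_mono (Metric.closedBall_subset_closedBall
        (Nat.one_div_le_one_div (Nat.le_succ n)))))
      (fun n => by
        obtain ⟨x, hx, hx'⟩ := h _ (Nat.one_div_pos_of_nat (n := n))
        exact ⟨B x, ⟨x, hx, rfl⟩, hx'⟩)
      (hK.inter_right (hb _ _)) (fun n => hK.isClosed.inter (hb _ _))
    rw [mem_iInter] at hw
    have h0 : dist (j w) (j y) ≤ 0 :=
      ge_of_tendsto' tendsto_one_div_add_atTop_nhds_zero_nat fun n => (hw n).2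
    have : w = y := hj (dist_le_zero.1 h0)
    exact hny (this ▸ (hw 0).1)
  have hin : ∀ n, B^[n] y ∈ L := fun n => hm.iterate n hy
  have hsep : ∀ m k, δ < dist (j (B^[m + (k + 1)] y)) (j (B^[m] y)) := by
    intro m k
    induction m with
    | zero =>
      rw [zero_add, Function.iterate_succ_apply']
      exact hδ' _ (hin k)
    | succ m ih =>
      rw [show m + 1 + (k + 1) = (m + (k + 1)) + 1 by ring, Function.iterate_succ_apply',
        Function.iterate_succ_apply']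
      exact ih.trans_le (hi _ (hin _) _ (hin _))
  obtain ⟨F, hF⟩ := hnet (δ / 2) (half_pos hδ)
  choose g hg hg' using fun n => hF _ (hin n)
  obtain ⟨m, -, n, -, hmn, h⟩ := infinite_univ.exists_lt_map_eq_of_mapsTo (f := g)
    (fun n _ => hg n) F.finite_toSet
  obtain ⟨k, rfl⟩ := Nat.exists_eq_add_of_lt hmn
  have a1 := hsep m k
  have a2 := hg' m
  have a3 := hg' (m + k + 1)
  rw [← h] at a3
  have := dist_triangle_right (j (B^[m + k + 1] y)) (j (B^[m] y)) (j (g m))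
  rw [← add_assoc] at a1
  linarith

theorem main {S : Type*} [Monoid S] [AddCommGroup W] [Module ℝ W] [NormedSpace ℝ V] (a b c : S)
    (hab : a * b = 1) (hac : a * c = 1) (hgen : Submonoid.closure {a, b, c} = ⊤)
    (j : W →ₗ[ℝ] V) (hj : Function.Injective j)
    (hb : ∀ v r, IsClosed (j ⁻¹' Metric.closedBall v r)) (C : Set W) (T : S → W → W)
    (hne : C.Nonempty) (hconv : Convex ℝ C) (hs : TopologicalSpace.IsSeparable (j '' C))
    (hC : IsCompact C) (hm : ∀ s, MapsTo (T s) C C)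
    (hT : ∀ s t, ∀ x ∈ C, T (s * t) x = T s (T t x))
    (hn : ∀ s, ∀ x ∈ C, ∀ y ∈ C, dist (j (T s x)) (j (T s y)) ≤ dist (j x) (j y))
    (hc : ∀ s, ContinuousOn (T s) C) : ∃ x ∈ C, ∀ s, T s x = x := by
  obtain ⟨C0, h01, h02, h03, ⟨h04, h05⟩, h06⟩ := exists_min
    (fun A => Convex ℝ A ∧ ∀ s, MapsTo (T s) A A)
    (fun c _ h => ⟨convex_sInter fun A hA => (h A hA).1,
      fun s x hx A hA => (h A hA).2 s (hx A hA)⟩) C hC hne ⟨hconv, hm⟩
  have hfix : ∀ s, ∀ x ∈ C0, T 1 (T s x) = T s x := fun s x hx => by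
    rw [← hT _ _ _ (h01 hx), one_mul]
  obtain ⟨L, hL1, hL2, hL3, ⟨hL4, hL5⟩, hL6⟩ := exists_min
    (fun A => MapsTo (T b) A A ∧ MapsTo (T c) A A)
    (fun c _ h => ⟨fun x hx A hA => (h A hA).1 (hx A hA), fun x hx A hA => (h A hA).2 (hx A hA)⟩)
    {x ∈ C0 | T 1 x = x} (h02.of_isClosed_subset
      (h02.isClosed.isClosed_eq ((hc 1).mono h01) continuousOn_id) (sep_subset _ _))
    (by obtain ⟨x, hx⟩ := h03; exact ⟨T 1 x, h05 1 hx, hfix 1 x hx⟩)
    ⟨fun x hx => ⟨h05 b hx.1, hfix b x hx.1⟩, fun x hx => ⟨h05 c hx.1, hfix c x hx.1⟩⟩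
  have hLC : L ⊆ C := fun x hx => h01 (hL1 hx).1
  have hinv : ∀ t, a * t = 1 → ∀ x ∈ L, T a (T t x) = x := fun t ht x hx => by
    rw [← hT _ _ _ (hLC hx), ht, (hL1 hx).2]
  have hiso : ∀ t, a * t = 1 → ∀ x ∈ L, ∀ y ∈ L,
      dist (j x) (j y) ≤ dist (j (T t x)) (j (T t y)) := fun t ht x hx y hy => by
    have := hn a _ (hm t (hLC hx)) _ (hm t (hLC hy))
    rwa [hinv t ht x hx, hinv t ht y hy] at this
  have hnet : ∀ ε : ℝ, 0 < ε → ∃ F : Finset W, (∀ y ∈ F, y ∈ L) ∧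
      ∀ x ∈ L, ∃ y ∈ F, dist (j x) (j y) ≤ ε := by
    intro ε hε
    let G : Set (Set W) := {U | IsOpen U ∧ ∀ y ∈ U ∩ L, ∀ z ∈ U ∩ L, dist (j y) (j z) ≤ ε}
    have hG : IsOpen (⋃₀ G) := isOpen_sUnion fun U hU => hU.1
    have hstep : ∀ t, a * t = 1 → MapsTo (T t) L L → MapsTo (T t) (L \ ⋃₀ G) (L \ ⋃₀ G) := by
      intro t ht hmt x hx
      refine ⟨hmt hx.1, ?_⟩
      rintro ⟨U, hU, hxU⟩
      obtain ⟨U', hU1, hU2⟩ := continuousOn_iff'.1 ((hc t).mono hLC) U hU.1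
      have e : ∀ y ∈ L, y ∈ U' ↔ T t y ∈ U := fun y hy =>
        ⟨fun h => (hU2.ge ⟨h, hy⟩).1, fun h => (hU2.le ⟨h, hy⟩).1⟩
      refine hx.2 ⟨U', ⟨hU1, fun y hy z hz => (hiso t ht y hy.2 z hz.2).trans ?_⟩, (e x hx.1).2 hxU⟩
      exact hU.2 _ ⟨(e y hy.2).1 hy.1, hmt hy.2⟩ _ ⟨(e z hz.2).1 hz.1, hmt hz.2⟩
    have hcov : L ⊆ ⋃₀ G := by
      by_contra h
      obtain ⟨U, hU, ⟨x, hx⟩, hU'⟩ := frag j hb L hL2 hL3 (hs.mono (image_mono hLC)) ε hε
      have := hL6 (L \ ⋃₀ G) sdiff_subset (hL2.isClosed.sdiff hG) (sdiff_nonempty.2 h)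
        ⟨hstep b hab hL4, hstep c hac hL5⟩ hx.2
      exact this.2 ⟨U, ⟨hU, hU'⟩, hx.1⟩
    choose! U hU hU' using hcov
    obtain ⟨F, hF, hF'⟩ := hL2.elim_nhds_subcover U fun x hx => (hU hx).1.mem_nhds (hU' hx)
    refine ⟨F, hF, fun x hx => ?_⟩
    obtain ⟨y, hy, hy'⟩ := mem_iUnion₂.1 (hF' hx)
    exact ⟨y, hy, (hU (hF y hy)).2 x ⟨hy', hx⟩ y ⟨hU' (hF y hy), hF y hy⟩⟩
  have hon : ∀ s, L ⊆ T s '' L := by
    intro s
    have hs : s ∈ Submonoid.closure {a, b, c} := hgen ▸ Submonoid.mem_top s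
    have hnet' := fun ε hε => (hnet ε hε).imp fun F h => h.2
    induction hs using Submonoid.closure_induction with
    | mem s hs =>
      rcases hs with rfl | rfl | rfl
      · exact fun x hx => ⟨T b x, hL4 hx, hinv b hab x hx⟩
      · exact onto j hj hb L hL2 hnet' _ hL4 ((hc _).mono hLC) (hiso _ hab)
      · exact onto j hj hb L hL2 hnet' _ hL5 ((hc _).mono hLC) (hiso _ hac)
    | one => exact fun x hx => ⟨x, hx, (hL1 hx).2⟩
    | mul s t _ _ h1 h2 =>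
      intro x hx
      obtain ⟨y, hy, rfl⟩ := h1 hx
      obtain ⟨z, hz, rfl⟩ := h2 hy
      exact ⟨z, hz, hT s t z (hLC hz)⟩
  have hbd : Bornology.IsBounded (j '' L) := by
    obtain ⟨F, -, hF⟩ := hnet 1 one_pos
    refine ((Bornology.isBounded_biUnion_finset F).2 fun y _ =>
      Metric.isBounded_closedBall (x := j y) (r := 1)).subset ?_
    rintro _ ⟨x, hx, rfl⟩
    obtain ⟨y, hy, hy'⟩ := hF x hx
    exact mem_iUnion₂.2 ⟨y, hy, hy'⟩
  have hd : ∀ x ∈ L, ∀ y ∈ L, dist (j x) (j y) ≤ Metric.diam (j '' L) := fun x hx y hy =>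
    Metric.dist_le_diam_of_mem hbd ⟨x, hx, rfl⟩ ⟨y, hy, rfl⟩
  have h0 : Metric.diam (j '' L) ≤ 0 := by
    by_contra! hr
    obtain ⟨r, hr'⟩ : ∃ r, r = Metric.diam (j '' L) := ⟨_, rfl⟩
    rw [← hr'] at hr hd
    obtain ⟨F, hF, hF'⟩ := hnet (r / 2) (half_pos hr)
    have hn0 : (0 : ℝ) < F.card := by
      obtain ⟨x, hx⟩ := hL3
      obtain ⟨y, hy, -⟩ := hF' x hx
      exact_mod_cast Finset.card_pos.2 ⟨y, hy⟩
    have hw : ∑ _y ∈ F, ((F.card : ℝ))⁻¹ = 1 := by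
      rw [Finset.sum_const, nsmul_eq_mul, mul_inv_cancel₀ hn0.ne']
    have hu : ∑ y ∈ F, ((F.card : ℝ))⁻¹ • y ∈ C0 :=
      h04.sum_mem (fun _ _ => by positivity) hw fun y hy => (hL1 (hF y hy)).1
    have hu' : ∀ x ∈ L, dist (j (∑ y ∈ F, ((F.card : ℝ))⁻¹ • y)) (j x) ≤ r - r / 2 / F.card := by
      intro x hx
      obtain ⟨y0, hy0, hy0'⟩ := hF' x hx
      have e1 : j (∑ y ∈ F, ((F.card : ℝ))⁻¹ • y) - j x =
          ((F.card : ℝ))⁻¹ • ∑ y ∈ F, (j y - j x) := by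
        rw [Finset.sum_sub_distrib, Finset.sum_const, smul_sub, ← Nat.cast_smul_eq_nsmul ℝ,
          smul_smul, inv_mul_cancel₀ hn0.ne', one_smul, ← Finset.smul_sum, map_smul, map_sum]
      have e2 : ∑ y ∈ F, ‖j y - j x‖ ≤ ∑ y ∈ F, (r - if y = y0 then r / 2 else 0) := by
        apply Finset.sum_le_sum
        intro y hy
        rw [← dist_eq_norm]
        split_ifs with h
        · rw [h, dist_comm]; linarith
        · rw [sub_zero]; exact hd y (hF y hy) x hx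
      rw [Finset.sum_sub_distrib, Finset.sum_ite_eq', if_pos hy0, Finset.sum_const,
        nsmul_eq_mul] at e2
      rw [dist_eq_norm, e1, norm_smul, Real.norm_of_nonneg (by positivity)]
      calc _ ≤ ((F.card : ℝ))⁻¹ * (F.card * r - r / 2) :=
            mul_le_mul_of_nonneg_left ((norm_sum_le _ _).trans e2) (by positivity)
        _ = _ := by field_simp
    have hsub := h06 (C0 ∩ ⋂ x ∈ L, j ⁻¹' Metric.closedBall (j x) (r - r / 2 / F.card))
      inter_subset_left (h02.isClosed.inter (isClosed_biInter fun x _ => hb _ _))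
      ⟨_, hu, mem_iInter₂.2 hu'⟩
      ⟨h04.inter (convex_iInter₂ fun x _ => (convex_closedBall _ _).linear_preimage j), by
        intro s y hy
        refine ⟨h05 s hy.1, mem_iInter₂.2 fun x hx => ?_⟩
        obtain ⟨x', hx', rfl⟩ := hon s hx
        exact (hn s y (h01 hy.1) x' (hLC hx')).trans (mem_iInter₂.1 hy.2 x' hx')⟩
    have hpos : 0 < r / 2 / F.card := by positivity
    have : Metric.diam (j '' L) ≤ r - r / 2 / F.card := by
      obtain ⟨x0, hx0⟩ := hL3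
      apply Metric.diam_le_of_forall_dist_le (dist_nonneg.trans (hu' x0 hx0))
      rintro _ ⟨x, hx, rfl⟩ _ ⟨y, hy, rfl⟩
      exact mem_iInter₂.1 (hsub (hL1 hx).1).2 y hy
    linarith
  obtain ⟨x, hx⟩ := hL3
  refine ⟨x, hLC hx, fun s => ?_⟩
  obtain ⟨y, hy, h⟩ := hon s hx
  have : y = x := hj (dist_le_zero.1 ((hd y hy x hx).trans h0))
  rwa [this] at h

end Pool.Agent.H.MP_722163_an
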